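import Mathlib

set_option autoImplicit false

namespace Pool.Agent.H3TP

open Finset

/-- A graph induced on `S` is connected as soon as everything is reachable from a root. -/
lemma conn_of_root {V : Type*} (A : SimpleGraph V) (S : Set V) (x0 : V) (h0 : x0 ∈ S)
    (h : ∀ v, ∀ hv : v ∈ S, (A.induce S).Reachable ⟨x0, h0⟩ ⟨v, hv⟩) :
    (A.induce S).Connected := by
  rw [SimpleGraph.connected_iff_exists_forall_reachable]
  exact ⟨⟨x0, h0⟩, fun ⟨v, hv⟩ => h v hv⟩

lemma reach_step {V : Type*} (A : SimpleGraph V) (S : Set V) (a : S) (u v : V) (hu : u ∈ S)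
    (hv : v ∈ S) (h : (A.induce S).Reachable a ⟨u, hu⟩) (huv : A.Adj u v) :
    (A.induce S).Reachable a ⟨v, hv⟩ := by
  refine h.trans (SimpleGraph.Adj.reachable ?_)
  simpa using huv

lemma conn_comp {V : Type*} (A : SimpleGraph V) (u : V) :
    (A.induce {v | A.connectedComponentMk v = A.connectedComponentMk u}).Connected := by
  have h := (A.connectedComponentMk u).connected_toSimpleGraph
  exact h

lemma exists_ne_two {V α : Type*} (r : V → α) (u1 u2 u3 : V) (h12 : r u1 ≠ r u2)
    (h13 : r u1 ≠ r u3) (h23 : r u2 ≠ r u3) (x y : α) : ∃ w, r w ≠ x ∧ r w ≠ y := by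
  by_contra h
  push Not at h
  have h1 := h u1
  have h2 := h u2
  have h3 := h u3
  clear h
  by_cases a1 : r u1 = x
  · have b2 := h2 (fun h => h12 (a1.trans h.symm))
    have b3 := h3 (fun h => h13 (a1.trans h.symm))
    exact h23 (b2.trans b3.symm)
  · have b1 := h1 a1
    by_cases a2 : r u2 = x
    · have b3 := h3 (fun h => h23 (a2.trans h.symm))
      exact h13 (b1.trans b3.symm)
    · exact h12 (b1.trans (h2 a2).symm)

/-- Among three distinct values, two differ from a given one. -/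
lemma exists_two_ne {V α : Type*} (r : V → α) (u1 u2 u3 : V) (h12 : r u1 ≠ r u2)
    (h13 : r u1 ≠ r u3) (h23 : r u2 ≠ r u3) (x : α) :
    ∃ v w, r v ≠ x ∧ r w ≠ x ∧ r v ≠ r w := by
  by_cases h1 : r u1 = x
  · exact ⟨u2, u3, fun h => h12 (h1.trans h.symm), fun h => h13 (h1.trans h.symm), h23⟩
  · by_cases h2 : r u2 = x
    · exact ⟨u1, u3, h1, fun h => h23 (h2.trans h.symm), h13⟩
    · exact ⟨u1, u2, h1, h2, h12⟩

/-- The combinatorial part of König's theorem that is needed. -/
lemma cover_of_no_three {V α β : Type*} (r : V → α) (b : V → β)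
    (h3 : ∀ u v w : V, r u ≠ r v → r u ≠ r w → r v ≠ r w → b u ≠ b v → b u ≠ b w → b v ≠ b w →
      False)
    (u1 u2 u3 : V) (hu12 : r u1 ≠ r u2) (hu13 : r u1 ≠ r u3) (hu23 : r u2 ≠ r u3)
    (t1 t2 t3 : V) (ht12 : b t1 ≠ b t2) (ht13 : b t1 ≠ b t3) (ht23 : b t2 ≠ b t3) :
    ∃ p q : V, ∀ v, r v = r q ∨ b v = b p := by
  classical
  -- two independent vertices
  have h2 : ∃ p q : V, r p ≠ r q ∧ b p ≠ b q := by
    by_contra hne
    push Not at hne
    have e12 : b u1 = b u2 := hne _ _ hu12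
    have e13 : b u1 = b u3 := hne _ _ hu13
    have hall : ∀ v, b v = b u1 := by
      intro v
      by_cases h : r v = r u1
      · have : r v ≠ r u2 := fun h' => hu12 (h.symm.trans h')
        rw [hne _ _ this, e12]
      · exact hne _ _ h
    exact ht12 ((hall t1).trans (hall t2).symm)
  obtain ⟨p, q, hrpq, hbpq⟩ := h2
  -- a vertex outside both red components
  have hw : ∃ w, r w ≠ r p ∧ r w ≠ r q := exists_ne_two r u1 u2 u3 hu12 hu13 hu23 _ _
  have ht : ∃ t, b t ≠ b p ∧ b t ≠ b q := exists_ne_two b t1 t2 t3 ht12 ht13 ht23 _ _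
  obtain ⟨w, hwp, hwq⟩ := hw
  obtain ⟨t, htp, htq⟩ := ht
  -- main argument for `b w = b p`
  have main : ∀ p q : V, r p ≠ r q → b p ≠ b q → r w ≠ r p → r w ≠ r q → b t ≠ b p → b t ≠ b q →
      b w = b p → ∀ v, r v = r q ∨ b v = b p := by
    intro p q hr hb hwp hwq htp htq hwb
    have hrt : r t = r q := by
      by_contra hne
      by_cases h : r t = r p
      · exact h3 w t q (by rw [h]; exact hwp) hwq (by rw [h]; exact hr)
          (by rw [hwb]; exact htp.symm) (by rw [hwb]; exact hb) htq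
      · exact h3 p q t hr (Ne.symm h) (Ne.symm hne) hb htp.symm htq.symm
    intro v
    by_contra hne
    push Not at hne
    obtain ⟨hvq, hvp⟩ := hne
    by_cases h1 : r v = r p
    · by_cases h2 : b v = b t
      · exact h3 v w q (by rw [h1]; exact hwp.symm) hvq hwq
          (by rw [hwb]; exact hvp) (by rw [h2]; exact htq) (by rw [hwb]; exact hb)
      · exact h3 v w t (by rw [h1]; exact hwp.symm) (by rw [hrt]; exact hvq)
          (by rw [hrt]; exact hwq) (by rw [hwb]; exact hvp) h2 (by rw [hwb]; exact htp.symm)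
    · by_cases h2 : b v = b q
      · exact h3 v t p (by rw [hrt]; exact hvq) h1 (by rw [hrt]; exact hr.symm)
          (by rw [h2]; exact htq.symm) hvp htp
      · exact h3 v p q h1 hvq hr hvp h2 hb
  by_cases hwb : b w = b p
  · exact ⟨p, q, main p q hrpq hbpq hwp hwq htp htq hwb⟩
  · have hwb' : b w = b q := by
      by_contra h
      exact h3 w p q hwp hwq hrpq hwb h hbpq
    exact ⟨q, p, main q p hrpq.symm hbpq.symm hwq hwp htq htp hwb'⟩

end Pool.Agent.H3TP
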