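import Pool.Agent.H3TP.Core

set_option autoImplicit false

namespace Pool.Agent.H3TP

open Finset
open scoped Classical

variable {V : Type*} [Fintype V]

/-- The main case. -/
theorem main_case (R B : SimpleGraph V) (ρ : R.ConnectedComponent) (β : B.ConnectedComponent)
    (hdeg : Ore R B)
    (hcov : ∀ v, R.connectedComponentMk v = ρ ∨ B.connectedComponentMk v = β)
    (x1 x2 y1 y2 : V)
    (hx1 : B.connectedComponentMk x1 ≠ β) (hx2 : B.connectedComponentMk x2 ≠ β)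
    (hx12 : x1 ≠ x2) (hxR : ¬ R.Adj x1 x2) (hxB : ¬ B.Adj x1 x2)
    (hy1 : R.connectedComponentMk y1 ≠ ρ) (hy2 : R.connectedComponentMk y2 ≠ ρ)
    (hy12 : y1 ≠ y2) (hyR : ¬ R.Adj y1 y2) (hyB : ¬ B.Adj y1 y2) :
    ∃ S T : Set V, Disjoint S T ∧ S ∪ T = Set.univ ∧
      (R.induce S).Connected ∧ (B.induce T).Connected := by
  set r := fun v => R.connectedComponentMk v with hr
  set b := fun v => B.connectedComponentMk v with hb
  have hRr : ∀ {u v}, R.Adj u v → r u = r v := fun h => comp_eq h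
  have hBb : ∀ {u v}, B.Adj u v → b u = b v := fun h => comp_eq h
  have hNof : ∀ {v w}, r w ≠ r v → b w ≠ b v → w ∈ N R B v := fun h1 h2 => mem_N_of h1 h2
  obtain ⟨X, hX⟩ : ∃ X : Finset V, ∀ v, v ∈ X ↔ b v ≠ β :=
    ⟨univ.filter (fun v => b v ≠ β), by intro v; simp⟩
  obtain ⟨Y, hY⟩ : ∃ Y : Finset V, ∀ v, v ∈ Y ↔ r v ≠ ρ :=
    ⟨univ.filter (fun v => r v ≠ ρ), by intro v; simp⟩
  obtain ⟨Z, hZ⟩ : ∃ Z : Finset V, ∀ v, v ∈ Z ↔ r v = ρ ∧ b v = β :=
    ⟨univ.filter (fun v => r v = ρ ∧ b v = β), by intro v; simp⟩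
  have hXr : ∀ v ∈ X, r v = ρ := by
    intro v hv
    rcases hcov v with h | h
    · exact h
    · exact absurd h ((hX v).1 hv)
  have hYb : ∀ v ∈ Y, b v = β := by
    intro v hv
    rcases hcov v with h | h
    · exact absurd h ((hY v).1 hv)
    · exact h
  have hx1X : x1 ∈ X := (hX _).2 hx1
  have hx2X : x2 ∈ X := (hX _).2 hx2
  have hy1Y : y1 ∈ Y := (hY _).2 hy1
  have hy2Y : y2 ∈ Y := (hY _).2 hy2
  have hXY : Disjoint X Y := by
    rw [Finset.disjoint_left]
    intro v h1 h2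
    exact (hY v).1 h2 (hXr v h1)
  have hXZ : Disjoint X Z := by
    rw [Finset.disjoint_left]
    intro v h1 h2
    exact (hX v).1 h1 ((hZ v).1 h2).2
  have hYZ : Disjoint Y Z := by
    rw [Finset.disjoint_left]
    intro v h1 h2
    exact (hY v).1 h1 ((hZ v).1 h2).1
  have hcardV : Fintype.card V ≤ X.card + Y.card + Z.card := by
    have : (univ : Finset V) ⊆ X ∪ Y ∪ Z := by
      intro v _
      simp only [mem_union, hX, hY, hZ]
      by_cases h1 : b v = β
      · by_cases h2 : r v = ρ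
        · exact Or.inr ⟨h2, h1⟩
        · exact Or.inl (Or.inr h2)
      · exact Or.inl (Or.inl h1)
    calc Fintype.card V = (univ : Finset V).card := card_univ.symm
      _ ≤ (X ∪ Y ∪ Z).card := card_le_card this
      _ ≤ (X ∪ Y).card + Z.card := card_union_le _ _
      _ ≤ X.card + Y.card + Z.card := by
        have := card_union_le X Y
        omega
  -- edges
  have hXN : ∀ x ∈ X, ∀ y ∈ Y, y ∈ N R B x := by
    intro x hx y hy
    refine hNof ?_ ?_
    · rw [hXr x hx]; exact (hY y).1 hy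
    · rw [hYb y hy]; exact fun h => (hX x).1 hx h.symm
  have hYN : ∀ y ∈ Y, ∀ x ∈ X, x ∈ N R B y := by
    intro y hy x hx
    refine hNof ?_ ?_
    · rw [hXr x hx]; exact fun h => (hY y).1 hy h.symm
    · rw [hYb y hy]; exact (hX x).1 hx
  have hXZB : ∀ x ∈ X, ∀ z ∈ Z, ¬ B.Adj x z := by
    intro x hx z hz h
    exact (hX x).1 hx ((hBb h).trans ((hZ z).1 hz).2)
  have hYZR : ∀ y ∈ Y, ∀ z ∈ Z, ¬ R.Adj y z := by
    intro y hy z hz h
    exact (hY y).1 hy ((hRr h).trans ((hZ z).1 hz).1)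
  -- counting
  have C1 : X.card + ({y2} : Finset V).card + (N R B y1 ∩ Z).card ≤ (N R B y1).card := by
    refine card_three ?_ ?_ ?_ ?_ ?_ ?_
    · rw [Finset.disjoint_singleton_right]
      exact fun h => Finset.disjoint_left.1 hXY h hy2Y
    · exact (hXZ.mono_right inter_subset_right)
    · rw [Finset.disjoint_singleton_left]
      intro h
      exact Finset.disjoint_left.1 hYZ hy2Y (mem_of_mem_inter_right h)
    · intro x hx; exact hYN y1 hy1Y x hx
    · intro v hv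
      rw [mem_singleton] at hv
      subst hv
      rw [mem_N]
      exact ⟨hy12.symm, hyR, hyB⟩
    · exact inter_subset_left
  have C3 : Y.card + ({x2} : Finset V).card + (N R B x1 ∩ Z).card ≤ (N R B x1).card := by
    refine card_three ?_ ?_ ?_ ?_ ?_ ?_
    · rw [Finset.disjoint_singleton_right]
      exact fun h => Finset.disjoint_left.1 hXY hx2X h
    · exact (hYZ.mono_right inter_subset_right)
    · rw [Finset.disjoint_singleton_left]
      intro h
      exact Finset.disjoint_left.1 hXZ hx2X (mem_of_mem_inter_right h)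
    · intro y hy; exact hXN x1 hx1X y hy
    · intro v hv
      rw [mem_singleton] at hv
      subst hv
      rw [mem_N]
      exact ⟨hx12.symm, hxR, hxB⟩
    · exact inter_subset_left
  have C2 : ∀ y ∈ Y, X.card + (N R B y ∩ Z).card ≤ (N R B y).card := by
    intro y hy
    refine card_two (hXZ.mono_right inter_subset_right) ?_ inter_subset_left
    intro x hx; exact hYN y hy x hx
  have C4 : ∀ x ∈ X, Y.card + (N R B x ∩ Z).card ≤ (N R B x).card := by
    intro x hx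
    refine card_two (hYZ.mono_right inter_subset_right) ?_ inter_subset_left
    intro y hy; exact hXN x hx y hy
  rw [card_singleton] at C1 C3
  have hXpos : 0 < X.card := card_pos.2 ⟨x1, hx1X⟩
  have hYpos : 0 < Y.card := card_pos.2 ⟨y1, hy1Y⟩
  -- connectors for `Y`
  have conY : ∀ y, ∃ w, y ∈ Y → y ≠ y1 → w ∈ Z ∧ B.Adj y1 w ∧ B.Adj y w := by
    intro y
    by_cases hy : y ∈ Y
    swap
    · exact ⟨y, fun h => absurd h hy⟩
    by_cases hyy : y = y1
    · exact ⟨y, fun _ h => absurd hyy h⟩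
    by_contra hne
    push Not at hne
    have hsub : Z ⊆ (N R B y1 ∩ Z) ∪ (N R B y ∩ Z) := by
      intro z hz
      rw [mem_union, mem_inter, mem_inter]
      by_cases h1 : B.Adj y1 z
      · right
        refine ⟨?_, hz⟩
        rw [mem_N]
        refine ⟨?_, hYZR y hy z hz, ?_⟩
        · rintro rfl
          exact Finset.disjoint_left.1 hYZ hy hz
        · exact (hne z).2.2 hz h1
      · left
        refine ⟨?_, hz⟩
        rw [mem_N]
        refine ⟨?_, hYZR y1 hy1Y z hz, h1⟩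
        rintro rfl
        exact Finset.disjoint_left.1 hYZ hy1Y hz
    have hle := (card_le_card hsub).trans (card_union_le _ _)
    have c2 := C2 y hy
    have dy := hdeg y1 y x1 (Ne.symm hyy) (hXN x1 hx1X y1 hy1Y) (hXN x1 hx1X y hy)
    omega
  choose g hg using conY
  obtain ⟨WY, hWY⟩ : ∃ W : Finset V, W = (Y.erase y1).image g := ⟨_, rfl⟩
  have hWYcard : WY.card + 1 ≤ Y.card := by
    have : WY.card ≤ (Y.erase y1).card := by rw [hWY]; exact card_image_le
    rw [card_erase_of_mem hy1Y] at this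
    omega
  have hWYmem : ∀ w ∈ WY, w ∈ Z ∧ B.Adj y1 w := by
    intro w hw
    rw [hWY, mem_image] at hw
    obtain ⟨y, hy, rfl⟩ := hw
    have := hg y (mem_of_mem_erase hy) (ne_of_mem_erase hy)
    exact ⟨this.1, this.2.1⟩
  -- connectors for `X`
  have conX : ∀ x, ∃ w, x ∈ X → x ≠ x1 → w ∈ Z ∧ w ∉ WY ∧ R.Adj x1 w ∧ R.Adj x w := by
    intro x
    by_cases hx : x ∈ X
    swap
    · exact ⟨x, fun h => absurd h hx⟩
    by_cases hxx : x = x1
    · exact ⟨x, fun _ h => absurd hxx h⟩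
    by_contra hne
    push Not at hne
    have hsub : Z ⊆ (WY ∪ (N R B x1 ∩ Z)) ∪ (N R B x ∩ Z) := by
      intro z hz
      rw [mem_union, mem_union, mem_inter, mem_inter]
      by_cases h0 : z ∈ WY
      · exact Or.inl (Or.inl h0)
      by_cases h1 : R.Adj x1 z
      · right
        refine ⟨?_, hz⟩
        rw [mem_N]
        refine ⟨?_, ?_, hXZB x hx z hz⟩
        · rintro rfl
          exact Finset.disjoint_left.1 hXZ hx hz
        · exact (hne z).2.2 hz h0 h1
      · left; right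
        refine ⟨?_, hz⟩
        rw [mem_N]
        refine ⟨?_, h1, hXZB x1 hx1X z hz⟩
        rintro rfl
        exact Finset.disjoint_left.1 hXZ hx1X hz
    have hle := (card_le_card hsub).trans (card_union_le _ _)
    have hle2 := card_union_le WY (N R B x1 ∩ Z)
    have c4 := C4 x hx
    have dx := hdeg x1 x y1 (Ne.symm hxx) (hYN y1 hy1Y x1 hx1X) (hYN y1 hy1Y x hx)
    omega
  choose h hh using conX
  obtain ⟨WX, hWX⟩ : ∃ W : Finset V, W = (X.erase x1).image h := ⟨_, rfl⟩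
  have hWXcard : WX.card + 1 ≤ X.card := by
    have : WX.card ≤ (X.erase x1).card := by rw [hWX]; exact card_image_le
    rw [card_erase_of_mem hx1X] at this
    omega
  have hWXmem : ∀ w ∈ WX, w ∈ Z ∧ w ∉ WY ∧ R.Adj x1 w := by
    intro w hw
    rw [hWX, mem_image] at hw
    obtain ⟨x, hx, rfl⟩ := hw
    have := hh x (mem_of_mem_erase hx) (ne_of_mem_erase hx)
    exact ⟨this.1, this.2.1, this.2.2.1⟩
  -- vertices without neighbours in `X` or in `Y`
  obtain ⟨nX, hnX⟩ : ∃ S : Finset V, ∀ z, z ∈ S ↔ z ∈ Z ∧ ∀ x ∈ X, ¬ R.Adj x z :=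
    ⟨Z.filter (fun z => ∀ x ∈ X, ¬ R.Adj x z), by intro z; simp⟩
  obtain ⟨nY, hnY⟩ : ∃ S : Finset V, ∀ z, z ∈ S ↔ z ∈ Z ∧ ∀ y ∈ Y, ¬ B.Adj y z :=
    ⟨Z.filter (fun z => ∀ y ∈ Y, ¬ B.Adj y z), by intro z; simp⟩
  have hnXcard : nX.card ≤ (N R B x1 ∩ Z).card := by
    refine card_le_card ?_
    intro z hz
    obtain ⟨hzZ, hz2⟩ := (hnX z).1 hz
    rw [mem_inter, mem_N]
    refine ⟨⟨?_, hz2 x1 hx1X, hXZB x1 hx1X z hzZ⟩, hzZ⟩
    rintro rfl
    exact Finset.disjoint_left.1 hXZ hx1X hzZ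
  have hnYcard : nY.card ≤ (N R B y1 ∩ Z).card := by
    refine card_le_card ?_
    intro z hz
    obtain ⟨hzZ, hz2⟩ := (hnY z).1 hz
    rw [mem_inter, mem_N]
    refine ⟨⟨?_, hYZR y1 hy1Y z hzZ, hz2 y1 hy1Y⟩, hzZ⟩
    rintro rfl
    exact Finset.disjoint_left.1 hYZ hy1Y hzZ
  obtain ⟨U, hU⟩ : ∃ S : Finset V, S = nX ∩ nY := ⟨_, rfl⟩
  have hUcard : (nX ∪ nY).card + U.card = nX.card + nY.card := by
    rw [hU]; exact card_union_add_card_inter nX nY
  have hUn : ∀ v ∈ U, v ∈ nX := by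
    intro v hv
    rw [hU] at hv
    exact mem_of_mem_inter_left hv
  -- free neighbours
  obtain ⟨F, hF⟩ : ∃ F : V → Finset V, ∀ u z, z ∈ F u ↔ z ∈ Z ∧ z ∉ nX ∧ z ∉ nY ∧ z ∉ WX ∧
      z ∉ WY ∧ (R.Adj u z ∨ B.Adj u z) :=
    ⟨fun u => Z.filter (fun z => z ∉ nX ∧ z ∉ nY ∧ z ∉ WX ∧ z ∉ WY ∧ (R.Adj u z ∨ B.Adj u z)),
      by intro u z; simp⟩
  have hFcard : ∀ u ∈ U, U.card ≤ (F u).card := by
    intro u hu
    rw [hU, mem_inter] at hu
    obtain ⟨hu1, hu2⟩ := hu
    obtain ⟨huZ, hu1'⟩ := (hnX u).1 hu1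
    obtain ⟨_, hu2'⟩ := (hnY u).1 hu2
    have C5 : X.card + Y.card + (N R B u ∩ Z).card ≤ (N R B u).card := by
      refine card_three hXY (hXZ.mono_right inter_subset_right)
        (hYZ.mono_right inter_subset_right) ?_ ?_ inter_subset_left
      · intro x hx
        rw [mem_N]
        refine ⟨?_, fun h' => hu1' x hx h'.symm, fun h' => hXZB x hx u huZ h'.symm⟩
        rintro rfl
        exact Finset.disjoint_left.1 hXZ hx huZ
      · intro y hy
        rw [mem_N]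
        refine ⟨?_, fun h' => hYZR y hy u huZ h'.symm, fun h' => hu2' y hy h'.symm⟩
        rintro rfl
        exact Finset.disjoint_left.1 hYZ hy huZ
    have hsub : Z ⊆ ((F u ∪ (N R B u ∩ Z)) ∪ (WX ∪ WY)) ∪ (nX ∪ nY) := by
      intro z hz
      simp only [mem_union, mem_inter, hF]
      by_cases h1 : z ∈ nX
      · exact Or.inr (Or.inl h1)
      by_cases h2 : z ∈ nY
      · exact Or.inr (Or.inr h2)
      by_cases h3 : z ∈ WX
      · exact Or.inl (Or.inr (Or.inl h3))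
      by_cases h4 : z ∈ WY
      · exact Or.inl (Or.inr (Or.inr h4))
      by_cases h5 : R.Adj u z ∨ B.Adj u z
      · exact Or.inl (Or.inl (Or.inl ⟨hz, h1, h2, h3, h4, h5⟩))
      · refine Or.inl (Or.inl (Or.inr ⟨?_, hz⟩))
        push Not at h5
        rw [mem_N]
        refine ⟨?_, h5.1, h5.2⟩
        rintro rfl
        exact h1 hu1
    have l1 := (card_le_card hsub).trans (card_union_le _ _)
    have l2 := card_union_le (F u ∪ (N R B u ∩ Z)) (WX ∪ WY)
    have l3 := card_union_le (F u) (N R B u ∩ Z)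
    have l4 := card_union_le WX WY
    have hux : u ∈ N R B x1 := by
      rw [mem_N]
      refine ⟨?_, hu1' x1 hx1X, hXZB x1 hx1X u huZ⟩
      rintro rfl
      exact Finset.disjoint_left.1 hXZ hx1X huZ
    have hune : u ≠ y1 := by
      rintro rfl
      exact Finset.disjoint_left.1 hYZ hy1Y huZ
    have du := hdeg u y1 x1 hune hux (hXN x1 hx1X y1 hy1Y)
    omega
  -- Hall's theorem
  have hall : ∃ f : {u // u ∈ U} → V, Function.Injective f ∧ ∀ u, f u ∈ F u.1 := by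
    rw [← Finset.all_card_le_biUnion_card_iff_exists_injective (fun u : {u // u ∈ U} => F u.1)]
    intro s
    rcases s.eq_empty_or_nonempty with rfl | ⟨u, hu⟩
    · simp
    · calc s.card ≤ (univ : Finset {u // u ∈ U}).card := card_le_card (subset_univ _)
        _ = U.card := by rw [card_univ, Fintype.card_coe]
        _ ≤ (F u.1).card := hFcard u.1 u.2
        _ ≤ _ := card_le_card (subset_biUnion_of_mem (fun u : {u // u ∈ U} => F u.1) hu)
  obtain ⟨f, finj, hf⟩ := hall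
  -- the blue side
  obtain ⟨T, hT⟩ : ∃ T : Set V, ∀ v, v ∈ T ↔ (v ∈ Y ∨ (v ∈ Z ∧ (v ∈ WY ∨ (v ∈ nX ∧ v ∉ nY) ∨
      (∃ u, f u = v ∧ ¬ R.Adj u.1 v) ∨ (∃ hu : v ∈ U, ¬ R.Adj v (f ⟨v, hu⟩))))) :=
    ⟨{v | (v ∈ Y ∨ (v ∈ Z ∧ (v ∈ WY ∨ (v ∈ nX ∧ v ∉ nY) ∨
      (∃ u, f u = v ∧ ¬ R.Adj u.1 v) ∨ (∃ hu : v ∈ U, ¬ R.Adj v (f ⟨v, hu⟩)))))},
      fun v => Iff.rfl⟩
  refine ⟨Tᶜ, T, disjoint_compl_left, Set.compl_union_self T, ?_, ?_⟩
  · -- red side
    have hXT : ∀ x ∈ X, x ∈ Tᶜ := by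
      intro x hx hxT
      rcases (hT x).1 hxT with h' | h'
      · exact Finset.disjoint_left.1 hXY hx h'
      · exact Finset.disjoint_left.1 hXZ hx h'.1
    have hWXT : ∀ w ∈ WX, w ∈ Tᶜ := by
      intro w hw hwT
      obtain ⟨hwZ, hwWY, hwadj⟩ := hWXmem w hw
      have hwnX : w ∉ nX := fun h' => ((hnX w).1 h').2 x1 hx1X hwadj
      rcases (hT w).1 hwT with h' | h'
      · exact Finset.disjoint_left.1 hYZ h' hwZ
      · rcases h'.2 with h1 | h1 | ⟨u, hu, _⟩ | ⟨hu, _⟩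
        · exact hwWY h1
        · exact hwnX h1.1
        · have := (hF _ _).1 (hf u)
          rw [hu] at this
          exact this.2.2.2.1 hw
        · exact hwnX (hUn _ hu)
    have hx1T : x1 ∈ Tᶜ := hXT x1 hx1X
    refine conn_of_root R Tᶜ x1 hx1T ?_
    have reachX : ∀ x (hx : x ∈ X), (R.induce Tᶜ).Reachable ⟨x1, hx1T⟩ ⟨x, hXT x hx⟩ := by
      intro x hx
      by_cases hxe : x = x1
      · subst hxe; exact SimpleGraph.Reachable.refl _
      · have hw : h x ∈ WX := by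
          rw [hWX]; exact mem_image_of_mem h (mem_erase.2 ⟨hxe, hx⟩)
        obtain ⟨_, _, a1, a2⟩ := hh x hx hxe
        have s1 := reach_step R Tᶜ ⟨x1, hx1T⟩ x1 (h x) hx1T (hWXT _ hw)
          (SimpleGraph.Reachable.refl _) a1
        exact reach_step R Tᶜ ⟨x1, hx1T⟩ (h x) x (hWXT _ hw) (hXT x hx) s1 a2.symm
    have reachZ : ∀ z (hz : z ∈ Tᶜ), z ∈ Z → z ∉ nX →
        (R.induce Tᶜ).Reachable ⟨x1, hx1T⟩ ⟨z, hz⟩ := by
      intro z hz hzZ hznX
      have : ∃ x ∈ X, R.Adj x z := by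
        by_contra hne
        push Not at hne
        exact hznX ((hnX z).2 ⟨hzZ, hne⟩)
      obtain ⟨x, hx, hxz⟩ := this
      exact reach_step R Tᶜ ⟨x1, hx1T⟩ x z (hXT x hx) hz (reachX x hx) hxz
    intro v hv
    by_cases hvX : v ∈ X
    · exact reachX v hvX
    have hvY : v ∉ Y := fun h' => hv ((hT v).2 (Or.inl h'))
    have hvZ : v ∈ Z := by
      rw [hZ]
      rw [hX] at hvX
      rw [hY] at hvY
      exact ⟨not_not.1 hvY, not_not.1 hvX⟩
    by_cases hvnX : v ∈ nX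
    · have hvnY : v ∈ nY := by
        by_contra h'
        exact hv ((hT v).2 (Or.inr ⟨hvZ, Or.inr (Or.inl ⟨hvnX, h'⟩)⟩))
      have hvU : v ∈ U := by rw [hU]; exact mem_inter.2 ⟨hvnX, hvnY⟩
      have hadj : R.Adj v (f ⟨v, hvU⟩) := by
        by_contra h'
        exact hv ((hT v).2 (Or.inr ⟨hvZ, Or.inr (Or.inr (Or.inr ⟨hvU, h'⟩))⟩))
      obtain ⟨f1, f2, f3, f4, f5, f6⟩ := (hF _ _).1 (hf ⟨v, hvU⟩)
      have hfT : f ⟨v, hvU⟩ ∈ Tᶜ := by
        intro h'
        rcases (hT _).1 h' with h'' | h''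
        · exact Finset.disjoint_left.1 hYZ h'' f1
        · rcases h''.2 with h1 | h1 | ⟨u, hu, hu2⟩ | ⟨hu, _⟩
          · exact f5 h1
          · exact f2 h1.1
          · have := finj hu
            subst this
            exact hu2 hadj
          · exact f2 (hUn _ hu)
      exact reach_step R Tᶜ ⟨x1, hx1T⟩ _ v hfT hv (reachZ _ hfT f1 f2) hadj.symm
    · exact reachZ v hv hvZ hvnX
  · -- blue side
    have hYT : ∀ y ∈ Y, y ∈ T := fun y hy => (hT y).2 (Or.inl hy)
    have hWYT : ∀ w ∈ WY, w ∈ T := fun w hw =>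
      (hT w).2 (Or.inr ⟨(hWYmem w hw).1, Or.inl hw⟩)
    have hy1T : y1 ∈ T := hYT y1 hy1Y
    refine conn_of_root B T y1 hy1T ?_
    have reachY : ∀ y (hy : y ∈ Y), (B.induce T).Reachable ⟨y1, hy1T⟩ ⟨y, hYT y hy⟩ := by
      intro y hy
      by_cases hye : y = y1
      · subst hye; exact SimpleGraph.Reachable.refl _
      · have hw : g y ∈ WY := by
          rw [hWY]; exact mem_image_of_mem g (mem_erase.2 ⟨hye, hy⟩)
        obtain ⟨_, a1, a2⟩ := hg y hy hye
        have s1 := reach_step B T ⟨y1, hy1T⟩ y1 (g y) hy1T (hWYT _ hw)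
          (SimpleGraph.Reachable.refl _) a1
        exact reach_step B T ⟨y1, hy1T⟩ (g y) y (hWYT _ hw) (hYT y hy) s1 a2.symm
    have reachZ : ∀ z (hz : z ∈ T), z ∈ Z → z ∉ nY →
        (B.induce T).Reachable ⟨y1, hy1T⟩ ⟨z, hz⟩ := by
      intro z hz hzZ hznY
      have : ∃ y ∈ Y, B.Adj y z := by
        by_contra hne
        push Not at hne
        exact hznY ((hnY z).2 ⟨hzZ, hne⟩)
      obtain ⟨y, hy, hyz⟩ := this
      exact reach_step B T ⟨y1, hy1T⟩ y z (hYT y hy) hz (reachY y hy) hyz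
    intro v hv
    by_cases hvY : v ∈ Y
    · exact reachY v hvY
    have hv2 : v ∈ Z ∧ (v ∈ WY ∨ (v ∈ nX ∧ v ∉ nY) ∨
      (∃ u, f u = v ∧ ¬ R.Adj u.1 v) ∨ (∃ hu : v ∈ U, ¬ R.Adj v (f ⟨v, hu⟩))) := by
      rcases (hT v).1 hv with h' | h'
      · exact absurd h' hvY
      · exact h'
    obtain ⟨hvZ, hcase⟩ := hv2
    by_cases hvnY : v ∈ nY
    swap
    · exact reachZ v hv hvZ hvnY
    rcases hcase with h1 | h1 | ⟨u, hu, hu2⟩ | ⟨hu, hadj⟩
    · exact reach_step B T ⟨y1, hy1T⟩ y1 v hy1T hv (SimpleGraph.Reachable.refl _)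
        (hWYmem v h1).2
    · exact absurd hvnY h1.2
    · have := (hF _ _).1 (hf u)
      rw [hu] at this
      exact absurd hvnY this.2.2.1
    · obtain ⟨f1, f2, f3, f4, f5, f6⟩ := (hF _ _).1 (hf ⟨v, hu⟩)
      have hB : B.Adj v (f ⟨v, hu⟩) := by
        rcases f6 with h' | h'
        · exact absurd h' hadj
        · exact h'
      have hfT : f ⟨v, hu⟩ ∈ T :=
        (hT _).2 (Or.inr ⟨f1, Or.inr (Or.inr (Or.inl ⟨⟨v, hu⟩, rfl, hadj⟩))⟩)
      exact reach_step B T ⟨y1, hy1T⟩ _ v hfT hv (reachZ _ hfT f1 f3) hB.symm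

end Pool.Agent.H3TP
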